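import Mathlib

/-! A sparse set of natural numbers given by digits. -/

namespace Pool.Agent.X194.WM

open Set

/-- the scale inside a level -/
def s (n t : ℕ) : ℕ := 100 * n * 4 ^ t

/-- the digits of a level of length `n` -/
def C (n : ℕ) : Set ℕ := {c | c = 0 ∨ ∃ t ≤ 2 * n, c = s n t ∨ c = s n t + (10 * n + t)}

/-- the largest digit -/
def D (n : ℕ) : ℕ := s n (2 * n) + (10 * n + 2 * n)

/-- the lengths -/
def N : ℕ → ℕ
  | 0 => 1
  | j + 1 => N j + D (N j)

lemma zero_mem_C (n : ℕ) : 0 ∈ C n := Or.inl rfl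

lemma s_mono {n a b : ℕ} (h : a ≤ b) : s n a ≤ s n b :=
  Nat.mul_le_mul_left _ (Nat.pow_le_pow_right (by norm_num) h)

lemma s_lt {n a b : ℕ} (h : a < b) : 4 * s n a ≤ s n b := by
  have h1 : s n (a + 1) ≤ s n b := s_mono h
  have h2 : s n (a + 1) = 4 * s n a := by unfold s; rw [pow_succ]; ring
  omega

lemma s_ge (n a : ℕ) : 100 * n ≤ s n a := by
  unfold s
  exact Nat.le_mul_of_pos_right _ (by positivity)

lemma le_D {n c : ℕ} (hc : c ∈ C n) : c ≤ D n := by
  unfold D
  rcases hc with rfl | ⟨t, ht, rfl | rfl⟩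
  · omega
  · have := s_mono (n := n) ht; omega
  · have := s_mono (n := n) ht; omega

lemma D_mem (n : ℕ) : D n ∈ C n := Or.inr ⟨2 * n, le_rfl, Or.inr rfl⟩

lemma N_pos (j : ℕ) : 0 < N j := by
  induction j with
  | zero => exact one_pos
  | succ j ih => show 0 < N j + D (N j); omega

lemma N_succ_ge (j : ℕ) : 100 * N j ≤ N (j + 1) := by
  have h := s_ge (N j) (2 * N j)
  show 100 * N j ≤ N j + (s (N j) (2 * N j) + _)
  omega

lemma N_mono {i j : ℕ} (h : i ≤ j) : N i ≤ N j := by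
  induction j, h using Nat.le_induction with
  | base => exact le_rfl
  | succ j _ ih => have := N_succ_ge j; omega

lemma lt_N (j : ℕ) : j < N j := by
  induction j with
  | zero => exact one_pos
  | succ j ih => have := N_succ_ge j; omega

/-- nonzero digits -/
lemma C_form {n c : ℕ} (hc : c ∈ C n) (h0 : c ≠ 0) :
    ∃ t e, t ≤ 2 * n ∧ (e = 0 ∨ e = 10 * n + t) ∧ c = s n t + e := by
  rcases hc with rfl | ⟨t, ht, rfl | rfl⟩
  · exact absurd rfl h0
  · exact ⟨t, 0, ht, Or.inl rfl, by omega⟩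
  · exact ⟨t, _, ht, Or.inr rfl, rfl⟩

lemma C_ge {n c : ℕ} (hc : c ∈ C n) (h0 : c ≠ 0) : 100 * n ≤ c := by
  obtain ⟨t, e, -, -, rfl⟩ := C_form hc h0
  have := s_ge n t
  omega

/-- distinct digits are far apart -/
lemma C_sep {n c c' : ℕ} (_hn : 0 < n) (hc : c ∈ C n) (hc' : c' ∈ C n) (h : c < c') :
    c + 3 * n ≤ c' := by
  by_cases h0 : c = 0
  · have := C_ge hc' (by omega)
    omega
  obtain ⟨t, e, ht, he, rfl⟩ := C_form hc h0
  obtain ⟨t', e', ht', he', rfl⟩ := C_form hc' (by omega)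
  rcases lt_trichotomy t t' with h1 | h1 | h1
  · have h2 := s_lt (n := n) h1
    have h3 := s_ge n t
    omega
  · subst h1
    omega
  · have h2 := s_lt (n := n) h1
    have h3 := s_ge n t'
    omega

/-- the additive rigidity of the digits -/
lemma C_add {n c c' d : ℕ} (_hn : 0 < n) (hc : c ∈ C n) (hc' : c' ∈ C n) (hd : d ∈ C n)
    (hd0 : d ≠ 0) (h1 : c' < c + d + 2 * n) (h2 : c + d < c' + 2 * n) : c = 0 ∧ c' = d := by
  obtain ⟨t, e, ht, he, rfl⟩ := C_form hd hd0
  have g1 := s_ge n t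
  by_cases h0' : c' = 0
  · omega
  obtain ⟨a, ea, ha, hea, rfl⟩ := C_form hc' h0'
  have g2 := s_ge n a
  have hc0 : c = 0 := by
    by_contra h0
    obtain ⟨b, eb, hb, heb, rfl⟩ := C_form hc h0
    have g3 := s_ge n b
    rcases lt_trichotomy b t with h3 | h3 | h3
    · have k1 := s_lt (n := n) h3
      rcases Nat.lt_or_ge t a with h4 | h4
      · have k2 := s_lt (n := n) h4
        omega
      · have k2 := s_mono (n := n) h4
        omega
    · subst h3
      rcases Nat.lt_or_ge b a with h4 | h4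
      · have k2 := s_lt (n := n) h4
        omega
      · have k2 := s_mono (n := n) h4
        omega
    · have k1 := s_lt (n := n) h3
      rcases Nat.lt_or_ge b a with h4 | h4
      · have k2 := s_lt (n := n) h4
        omega
      · have k2 := s_mono (n := n) h4
        omega
  refine ⟨hc0, ?_⟩
  subst hc0
  rcases lt_trichotomy a t with h3 | h3 | h3
  · have k1 := s_lt (n := n) h3
    omega
  · subst h3
    omega
  · have k1 := s_lt (n := n) h3
    omega

/-- sums of digits of the levels `j, ..., j + d - 1` -/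
def RT (j : ℕ) : ℕ → Set ℕ
  | 0 => {0}
  | d + 1 => {x | ∃ r ∈ RT j d, ∃ c ∈ C (N (j + d)), x = r + c}

/-- sums of digits of the levels below `j` -/
def PP : ℕ → Set ℕ
  | 0 => {0}
  | j + 1 => {x | ∃ r ∈ PP j, ∃ c ∈ C (N j), x = r + c}

lemma zero_mem_RT (j d : ℕ) : 0 ∈ RT j d := by
  induction d with
  | zero => rfl
  | succ d ih => exact ⟨0, ih, 0, zero_mem_C _, rfl⟩

lemma RT_mono {j d e : ℕ} (h : d ≤ e) : RT j d ⊆ RT j e := by
  induction e, h using Nat.le_induction with
  | base => exact Subset.rfl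
  | succ e _ ih => exact fun x hx => ⟨x, ih hx, 0, zero_mem_C _, rfl⟩

lemma PP_mono {i j : ℕ} (h : i ≤ j) : PP i ⊆ PP j := by
  induction j, h using Nat.le_induction with
  | base => exact Subset.rfl
  | succ e _ ih => exact fun x hx => ⟨x, ih hx, 0, zero_mem_C _, rfl⟩

lemma zero_mem_PP (j : ℕ) : 0 ∈ PP j := by
  induction j with
  | zero => rfl
  | succ d ih => exact ⟨0, ih, 0, zero_mem_C _, rfl⟩

lemma PP_lt {j p : ℕ} (h : p ∈ PP j) : p < N j := by
  induction j generalizing p with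
  | zero =>
    have : p = 0 := h
    rw [this]; exact one_pos
  | succ j ih =>
    obtain ⟨r, hr, c, hc, rfl⟩ := h
    have h1 := ih hr
    have h2 := le_D hc
    show r + c < N j + D (N j)
    omega

lemma max_mem_PP (j : ℕ) : N j - 1 ∈ PP j := by
  induction j with
  | zero => rfl
  | succ j ih =>
    refine ⟨N j - 1, ih, D (N j), D_mem _, ?_⟩
    have := N_pos j
    show N j + D (N j) - 1 = _
    omega

lemma RT_lt {j d r : ℕ} (h : r ∈ RT j d) : r < N (j + d) := by
  induction d generalizing r with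
  | zero =>
    have : r = 0 := h
    rw [this]; exact N_pos _
  | succ d ih =>
    obtain ⟨r, hr, c, hc, rfl⟩ := h
    have h1 := ih hr
    have h2 := le_D hc
    show r + c < N (j + d) + D (N (j + d))
    omega

/-- distinct elements are far apart -/
lemma RT_sep {j d r r' : ℕ} (hr : r ∈ RT j d) (hr' : r' ∈ RT j d) (h : r < r') :
    r + 3 * N j ≤ r' := by
  induction d generalizing r r' with
  | zero =>
    have h1 : r = 0 := hr
    have h2 : r' = 0 := hr'
    omega
  | succ d ih =>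
    obtain ⟨a, ha, c, hc, rfl⟩ := hr
    obtain ⟨a', ha', c', hc', rfl⟩ := hr'
    have g1 := RT_lt ha
    have g2 := RT_lt ha'
    have hp := N_pos (j + d)
    rcases lt_trichotomy c c' with h1 | h1 | h1
    · have h2 := C_sep hp hc hc' h1
      rcases d with _ | d
      · have e1 : a = 0 := ha
        have e2 : a' = 0 := ha'
        simp only [add_zero] at h2
        omega
      · have h3 : N j ≤ N (j + d) := N_mono (by omega)
        have h4 := N_succ_ge (j + d)
        have h5 : N (j + (d + 1)) = N (j + d + 1) := rfl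
        omega
    · subst h1
      have := ih ha ha' (by omega)
      omega
    · have h2 := C_sep hp hc' hc h1
      omega

/-- the set -/
def P : Set ℕ := ⋃ j, PP j

/-- the positions of the blocks of level `j` -/
def R (j : ℕ) : Set ℕ := ⋃ d, RT j d

lemma zero_mem_R (j : ℕ) : 0 ∈ R j := mem_iUnion.2 ⟨0, rfl⟩

lemma R_sep {j r r' : ℕ} (hr : r ∈ R j) (hr' : r' ∈ R j) (h : r < r') : r + 3 * N j ≤ r' := by
  obtain ⟨d, hd⟩ := mem_iUnion.1 hr
  obtain ⟨d', hd'⟩ := mem_iUnion.1 hr'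
  exact RT_sep (RT_mono (le_max_left d d') hd) (RT_mono (le_max_right d d') hd') h

lemma split {j d p : ℕ} (h : p ∈ PP (j + d)) : ∃ a ∈ PP j, ∃ r ∈ RT j d, p = a + r := by
  induction d generalizing p with
  | zero => exact ⟨p, h, 0, rfl, rfl⟩
  | succ d ih =>
    obtain ⟨q, hq, c, hc, rfl⟩ := h
    obtain ⟨a, ha, r, hr, rfl⟩ := ih hq
    exact ⟨a, ha, r + c, ⟨r, hr, c, hc, rfl⟩, by ring⟩

lemma join {j d a r : ℕ} (ha : a ∈ PP j) (hr : r ∈ RT j d) : a + r ∈ PP (j + d) := by
  induction d generalizing r with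
  | zero =>
    have : r = 0 := hr
    rw [this]; exact ha
  | succ d ih =>
    obtain ⟨q, hq, c, hc, rfl⟩ := hr
    exact ⟨a + q, ih hq, c, hc, by ring⟩

lemma P_split (j : ℕ) {p : ℕ} (h : p ∈ P) : ∃ a ∈ PP j, ∃ r ∈ R j, p = a + r := by
  obtain ⟨i, hi⟩ := mem_iUnion.1 h
  obtain ⟨a, ha, r, hr, h1⟩ := split (PP_mono (show i ≤ j + i by omega) hi)
  exact ⟨a, ha, r, mem_iUnion.2 ⟨i, hr⟩, h1⟩

lemma P_join {j a r : ℕ} (ha : a ∈ PP j) (hr : r ∈ R j) : a + r ∈ P := by
  obtain ⟨d, hd⟩ := mem_iUnion.1 hr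
  exact mem_iUnion.2 ⟨j + d, join ha hd⟩

lemma RT_bottom {j d r c : ℕ} (hr : r ∈ RT (j + 1) d) (hc : c ∈ C (N j)) :
    r + c ∈ RT j (d + 1) := by
  induction d generalizing r with
  | zero =>
    have : r = 0 := hr
    rw [this]
    exact ⟨0, rfl, c, hc, rfl⟩
  | succ d ih =>
    obtain ⟨q, hq, e, he, rfl⟩ := hr
    refine ⟨q + c, ih hq, e, ?_, by ring⟩
    rw [show j + (d + 1) = j + 1 + d by ring]
    exact he

lemma R_bottom {j r c : ℕ} (hr : r ∈ R (j + 1)) (hc : c ∈ C (N j)) : r + c ∈ R j := by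
  obtain ⟨d, hd⟩ := mem_iUnion.1 hr
  exact mem_iUnion.2 ⟨d + 1, RT_bottom hd hc⟩

lemma R_anti {j r : ℕ} (hr : r ∈ R (j + 1)) : r ∈ R j := by
  have := R_bottom hr (zero_mem_C (N j))
  rwa [add_zero] at this

lemma C_sub_R {j c : ℕ} (hc : c ∈ C (N j)) : c ∈ R j := by
  have := R_bottom (zero_mem_R (j + 1)) hc
  rwa [zero_add] at this

/-- small elements of `P` -/
lemma P_small {j p : ℕ} (h : p ∈ P) (hp : p < 3 * N j) : p ∈ PP j := by
  obtain ⟨a, ha, r, hr, rfl⟩ := P_split j h
  rcases Nat.eq_zero_or_pos r with h0 | h0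
  · rw [h0]; exact ha
  · have := R_sep (zero_mem_R j) hr h0
    omega

/-- the blocks of level `j` are copies of the first one -/
lemma copy {j r i : ℕ} (hr : r ∈ R j) (hi : i < 2 * N j) : r + i ∈ P ↔ i ∈ P := by
  constructor
  · intro h
    obtain ⟨a, ha, r', hr', h1⟩ := P_split j h
    have h2 := PP_lt ha
    rcases lt_trichotomy r r' with h3 | h3 | h3
    · have := R_sep hr hr' h3; omega
    · have : i = a := by omega
      rw [this]; exact mem_iUnion.2 ⟨j, ha⟩
    · have := R_sep hr' hr h3; omega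
  · intro h
    have h1 := P_small h (show i < 3 * N j by omega)
    rw [add_comm]
    exact P_join h1 hr

/-- occurrences of the first block are at the positions of the blocks -/
lemma occ {j n : ℕ} (h : ∀ i < N j, (n + i ∈ P ↔ i ∈ P)) : n ∈ R j := by
  have hp := N_pos j
  have hM : N j - 1 ∈ P := mem_iUnion.2 ⟨j, max_mem_PP j⟩
  have h0 : n ∈ P := by
    have := (h 0 hp).2 (mem_iUnion.2 ⟨0, rfl⟩)
    rwa [add_zero] at this
  obtain ⟨a, ha, r, hr, rfl⟩ := P_split j h0
  have h2 := PP_lt ha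
  have h3 := (h (N j - 1) (by omega)).2 hM
  have h4 : a + (N j - 1) ∈ P := by
    rw [← copy hr (by omega)]
    rw [show r + (a + (N j - 1)) = a + r + (N j - 1) by ring]
    exact h3
  have h5 := PP_lt (P_small (j := j) h4 (by omega))
  have : a = 0 := by omega
  rw [this, zero_add]; exact hr

/-- top digit -/
lemma top_digit {j q : ℕ} (hq : q ∈ R j) (h0 : q ≠ 0) : ∃ J ≥ j, ∃ d ∈ C (N J), d ≠ 0 ∧
    ∃ l, l ∈ R j ∧ l ∈ PP J ∧ q = l + d := by
  obtain ⟨m, hm⟩ := mem_iUnion.1 hq
  induction m with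
  | zero => exact absurd hm h0
  | succ m ih =>
    obtain ⟨l, hl, d, hd, rfl⟩ := hm
    by_cases hd0 : d = 0
    · subst hd0
      exact ih hl
    · refine ⟨j + m, by omega, d, hd, hd0, l, mem_iUnion.2 ⟨m, hl⟩, ?_, rfl⟩
      have := join (zero_mem_PP j) hl
      rwa [zero_add] at this

/-- the descent -/
lemma descent {k n q π : ℕ} (hπ : π < N k) (h1 : n + π ∈ P) (hq : q ∈ R k) (hq0 : q ≠ 0)
    (h2 : n + q ∈ P) : ∃ l ∈ R k, l < q ∧ ∀ i < N k, (n + l + i ∈ P ↔ n + q + i ∈ P) := by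
  obtain ⟨J, hJ, d, hd, hd0, l, hl, hlP, rfl⟩ := top_digit hq hq0
  have hNJ : N k ≤ N J := N_mono hJ
  have hp := N_pos J
  obtain ⟨a', ha', Z', hZ', e'⟩ := P_split (J + 1) h2
  obtain ⟨a, ha, Z, hZ, e⟩ := P_split (J + 1) h1
  have b1 := PP_lt ha'
  have b2 := PP_lt ha
  have b3 := le_D hd
  have b4 := PP_lt hlP
  have b5 := C_ge hd hd0
  have b6 : N (J + 1) = N J + D (N J) := rfl
  have hZZ : Z = Z' := by
    rcases lt_trichotomy Z Z' with h3 | h3 | h3
    · have := R_sep hZ hZ' h3; omega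
    · exact h3
    · have := R_sep hZ' hZ h3; omega
  subst hZZ
  obtain ⟨al', hal', c', hc', rfl⟩ := ha'
  obtain ⟨al, hal, c, hc, rfl⟩ := ha
  have b7 := PP_lt hal'
  have b8 := PP_lt hal
  obtain ⟨hc0, hcd⟩ := C_add hp hc hc' hd hd0 (by omega) (by omega)
  subst hc0
  subst hcd
  have hZJ : Z ∈ R J := R_anti hZ
  have hZd : Z + c' ∈ R J := R_bottom hZ hd
  refine ⟨l, hl, by omega, fun i hi => ?_⟩
  have e1 : n + l + i = Z + (al' + i) := by omega
  have e2 : n + (l + c') + i = (Z + c') + (al' + i) := by omega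
  rw [e1, e2, copy hZJ (by omega), copy hZd (by omega)]

/-- coincidences reproduce the beginning -/
lemma coincidence {y : ℕ → Prop} (hy : ∀ L, ∃ n, ∀ i < L, (y i ↔ n + i ∈ P)) {k π q : ℕ}
    (hπ : π < N k) (h1 : y π) (hq : q ∈ R k) (h2 : y q) : ∀ i < N k, (y (q + i) ↔ y i) := by
  induction q using Nat.strong_induction_on with
  | _ q ih =>
    rcases Nat.eq_zero_or_pos q with h0 | h0
    · intro i _
      rw [h0, zero_add]
    · obtain ⟨n, hn⟩ := hy (q + N k + 1)
      have hN := N_pos k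
      obtain ⟨l, hl, hlq, hcop⟩ := descent hπ ((hn π (by omega)).1 h1) hq (by omega)
        ((hn q (by omega)).1 h2)
      have hcop' : ∀ i < N k, (y (l + i) ↔ y (q + i)) := by
        intro i hi
        rw [hn (l + i) (by omega), hn (q + i) (by omega), ← add_assoc, ← add_assoc]
        exact hcop i hi
      have h3 : y l := by
        have := (hcop' 0 hN).2
        rw [add_zero, add_zero] at this
        exact this h2
      intro i hi
      rw [← hcop' i hi]
      exact ih l hlq hl h3 i hi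

end Pool.Agent.X194.WM
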